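import Mathlib

namespace Pool.Agent.MP_8e9d7b_co

/-- The pair `a, b` monitors `e`: the two vertices are joined by a path and every shortest
`a`-`b` path contains `e`. -/
def Monitors {V : Type*} (G : SimpleGraph V) (a b : V) (e : Sym2 V) : Prop :=
  G.Reachable a b ∧ ∀ p : G.Walk a b, p.IsPath → p.length = G.dist a b → e ∈ p.edges

/-- `S` is a monitoring edge-geodetic set: every edge is monitored by a pair of vertices of `S`. -/
def IsMEG {V : Type*} (G : SimpleGraph V) (S : Set V) : Prop :=
  ∀ e ∈ G.edgeSet, ∃ a ∈ S, ∃ b ∈ S, Monitors G a b e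

/-- The least size of a monitoring edge-geodetic set. -/
noncomputable def meg {V : Type*} (G : SimpleGraph V) : ℕ :=
  sInf {k : ℕ | ∃ S : Set V, IsMEG G S ∧ S.ncard = k}

/-- The mandatory vertices: those lying in every monitoring edge-geodetic set. -/
def Man {V : Type*} (G : SimpleGraph V) : Set V :=
  {v | ∀ S : Set V, IsMEG G S → v ∈ S}

/-- The graph of a permutation `π` of `Fin n`: `i < j` are adjacent exactly when `π i > π j`. -/
def permGraph {n : ℕ} (π : Equiv.Perm (Fin n)) : SimpleGraph (Fin n) :=
  SimpleGraph.fromRel (fun i j => i < j ∧ π j < π i)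

/-- A permutation graph is a graph isomorphic to the graph of some permutation. -/
def IsPermutationGraph {V : Type*} (G : SimpleGraph V) : Prop :=
  ∃ (n : ℕ) (π : Equiv.Perm (Fin n)), Nonempty (G ≃g permGraph π)

end Pool.Agent.MP_8e9d7b_co
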