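import Pool.Agent.MP_8e9d7b_co.Defs

namespace Pool.Agent.MP_8e9d7b_co

open SimpleGraph

variable {V : Type*} {G : SimpleGraph V}

/-- Walk form of `Monitors`. -/
def Mon (G : SimpleGraph V) (a b : V) (e : Sym2 V) : Prop :=
  G.Reachable a b ∧ ∀ p : G.Walk a b, p.length = G.dist a b → e ∈ p.edges

lemma monitors_iff {a b : V} {e : Sym2 V} : Monitors G a b e ↔ Mon G a b e := by
  constructor
  · rintro ⟨h1, h2⟩
    exact ⟨h1, fun p hp => h2 p (p.isPath_of_length_eq_dist hp) hp⟩
  · rintro ⟨h1, h2⟩
    exact ⟨h1, fun p _ hp => h2 p hp⟩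

lemma Mon.symm {a b : V} {e : Sym2 V} (h : Mon G a b e) : Mon G b a e := by
  refine ⟨h.1.symm, fun p hp => ?_⟩
  have := h.2 p.reverse (by rw [Walk.length_reverse, hp, dist_comm])
  simpa [Walk.edges_reverse] using this

lemma dist_le_succ_of_adj {a a' : V} (h : G.Adj a a') (b : V) :
    G.dist a b ≤ G.dist a' b + 1 := by
  have h1 := h.reachable.dist_triangle_left b
  have h2 : G.dist a a' = 1 := dist_eq_one_iff_adj.mpr h
  omega

lemma dist_le_of_mem_support_left {p q a : V} (W : G.Walk p q) (h : a ∈ W.support) :
    G.dist p a ≤ W.length := by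
  classical
  exact (dist_le (W.takeUntil a h)).trans (W.length_takeUntil_le_length h)

lemma dist_le_of_mem_support_right {p q a : V} (W : G.Walk p q) (h : a ∈ W.support) :
    G.dist a q ≤ W.length := by
  classical
  exact (dist_le (W.dropUntil a h)).trans (W.length_dropUntil_le_length h)

lemma edge_position {p q a u : V} (W : G.Walk p q) (h : s(a, u) ∈ W.edges) :
    G.dist p a + 1 + G.dist u q ≤ W.length ∨ G.dist p u + 1 + G.dist a q ≤ W.length := by
  induction W with
  | nil => simp at h
  | @cons p p' q hadj W ih =>
    simp only [Walk.edges_cons, List.mem_cons, Walk.length_cons] at h ⊢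
    rcases h with h | h
    · have hW := dist_le W
      rcases Sym2.eq_iff.mp h with ⟨rfl, rfl⟩ | ⟨rfl, rfl⟩
      · left; simp only [dist_self]; omega
      · right; simp only [dist_self]; omega
    · have h1 := dist_le_succ_of_adj hadj a
      have h2 := dist_le_succ_of_adj hadj u
      rcases ih h with h | h
      · left; omega
      · right; omega

/-- If `p ≠ a` and the edge `au` is monitored by `p, q` in this direction, then `a` has a
neighbour `x` whose only common neighbour with `u` is `a`. -/
lemma witness_of_mon {p q a u : V} (hau : G.Adj a u) (hm : Mon G p q s(a, u)) (hpa : p ≠ a)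
    (hra : G.Reachable p a) (hpos : G.dist p a + 1 + G.dist u q ≤ G.dist p q) :
    ∃ x, G.Adj a x ∧ x ≠ u ∧ ¬ G.Adj x u ∧ ∀ y, G.Adj x y → G.Adj y u → y = a := by
  obtain ⟨A, hA⟩ := hra.symm.exists_walk_length_eq_dist
  have hru : G.Reachable u q := (hau.symm.reachable.trans hra.symm).trans hm.1
  obtain ⟨B, hB⟩ := hru.exists_walk_length_eq_dist
  cases A with
  | nil => exact absurd rfl hpa
  | @cons _ x _ hax A =>
    simp only [Walk.length_cons] at hA
    rw [dist_comm] at hA
    refine ⟨x, hax, ?_, ?_, ?_⟩
    · rintro rfl
      have := dist_le (A.reverse.append B)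
      simp only [Walk.length_append, Walk.length_reverse] at this
      omega
    · intro hxu
      have := dist_le (A.reverse.append (Walk.cons hxu B))
      simp only [Walk.length_append, Walk.length_reverse, Walk.length_cons] at this
      omega
    · intro y hxy hyu
      by_contra hya
      have hle := dist_le (A.reverse.append (Walk.cons hxy (Walk.cons hyu B)))
      have hmem := hm.2 (A.reverse.append (Walk.cons hxy (Walk.cons hyu B))) (by
        simp only [Walk.length_append, Walk.length_reverse, Walk.length_cons] at hle ⊢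
        omega)
      have hsup := Walk.fst_mem_support_of_mem_edges _ hmem
      rw [Walk.mem_support_append_iff] at hsup
      rcases hsup with hs | hs
      · have := dist_le_of_mem_support_left _ hs
        simp only [Walk.length_reverse] at this
        omega
      · simp only [Walk.support_cons, List.mem_cons] at hs
        rcases hs with hs | hs | hs
        · exact hax.ne hs
        · exact hya hs.symm
        · have h1 := dist_le_of_mem_support_right _ hs
          have h2 := hra.dist_triangle_left q
          omega

/-- The local obstruction carried by a vertex that is not mandatory. -/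
def Loose (G : SimpleGraph V) (a : V) : Prop :=
  ∀ u, G.Adj a u → ∃ x, G.Adj a x ∧ x ≠ u ∧ ¬ G.Adj x u ∧ ∀ y, G.Adj x y → G.Adj y u → y = a

lemma loose_of_not_mem_man {a : V} (h : a ∉ Man G) : Loose G a := by
  intro u hau
  simp only [Man, Set.mem_ofPred_eq, not_forall] at h
  obtain ⟨S, hS, haS⟩ := h
  obtain ⟨p, hp, q, hq, hm⟩ := hS s(a, u) hau
  rw [monitors_iff] at hm
  have hpa : p ≠ a := fun h => haS (h ▸ hp)
  have hqa : q ≠ a := fun h => haS (h ▸ hq)
  obtain ⟨W, hW⟩ := hm.1.exists_walk_length_eq_dist
  have hmem := hm.2 W hW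
  have hsup := Walk.fst_mem_support_of_mem_edges _ hmem
  have hra : G.Reachable p a := by
    classical
    exact ⟨W.takeUntil a hsup⟩
  rcases edge_position W hmem with h | h
  · exact witness_of_mon hau hm hpa hra (hW ▸ h)
  · refine witness_of_mon hau hm.symm hqa (hm.1.symm.trans hra) ?_
    rw [hW] at h
    rw [dist_comm (u := q) (v := a), dist_comm (u := u) (v := p), dist_comm (u := q) (v := p)]
    omega

/-- `X, Y` are coordinates representing `G` as an inversion graph of points in the plane. -/
structure Rep (G : SimpleGraph V) (X Y : V → ℤ) : Prop where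
  injX : Function.Injective X
  injY : Function.Injective Y
  adj : ∀ u v, G.Adj u v ↔ (X u < X v ∧ Y v < Y u) ∨ (X v < X u ∧ Y u < Y v)

lemma Rep.swap {X Y : V → ℤ} (h : Rep G X Y) : Rep G Y X :=
  ⟨h.injY, h.injX, fun u v => by rw [h.adj]; omega⟩

lemma Rep.neg {X Y : V → ℤ} (h : Rep G X Y) : Rep G (fun v => - X v) (fun v => - Y v) :=
  ⟨fun _ _ huv => h.injX (neg_injective huv), fun _ _ huv => h.injY (neg_injective huv),
    fun u v => by rw [h.adj]; omega⟩

lemma Rep.neX {X Y : V → ℤ} (h : Rep G X Y) {u v : V} (huv : u ≠ v) : X u ≠ X v :=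
  fun e => huv (h.injX e)

lemma Rep.neY {X Y : V → ℤ} (h : Rep G X Y) {u v : V} (huv : u ≠ v) : Y u ≠ Y v :=
  fun e => huv (h.injY e)

/-- A walk from below-left of `a` to above-right of `a` passes the closed neighbourhood of `a`. -/
lemma Rep.sep {X Y : V → ℤ} (h : Rep G X Y) (a : V) {w b : V} (W : G.Walk w b)
    (h1 : X w < X a) (h2 : Y w < Y a) (h3 : X a < X b) (h4 : Y a < Y b) :
    G.dist a b ≤ W.length := by
  induction W with
  | nil => omega
  | @cons w w' b hadj W ih =>
    simp only [Walk.length_cons]
    by_cases he : w' = a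
    · subst he
      have := dist_le W
      omega
    · by_cases ha : G.Adj a w'
      · have := dist_le (Walk.cons ha W)
        simpa using this
      · have hx := h.neX he
        have hy := h.neY he
        rw [h.adj] at ha hadj
        have := ih (by omega) (by omega) h3 h4
        omega

lemma Rep.extend_UL [Finite V] {X Y : V → ℤ} (h : Rep G X Y) {a b a' a2 : V} {e : Sym2 V}
    (hm : Mon G a b e) (hab1 : X a < X b) (hab2 : Y a < Y b)
    (h1 : G.Adj a a') (h2 : G.Adj a' a2) (W : G.Walk a2 b) (hW : W.length + 2 = G.dist a b)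
    (hUL : X a' < X a) (hna : Loose G a) :
    ∃ x, Mon G x b e ∧ G.dist x b = G.dist a b + 1 := by
  have h1' := (h.adj _ _).mp h1
  have h2' := (h.adj _ _).mp h2
  have hYa' : Y a < Y a' := by omega
  -- the second vertex lies above-right of `a`
  have ha2ne : a2 ≠ a := by
    rintro rfl
    have := dist_le W
    omega
  have ha2na : ¬ G.Adj a a2 := by
    intro ha
    have := dist_le (Walk.cons ha W)
    simp only [Walk.length_cons] at this
    omega
  have ha2 : X a < X a2 ∧ Y a < Y a2 := by
    have hx := h.neX ha2ne
    have hy := h.neY ha2ne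
    rw [h.adj] at ha2na
    by_contra hc
    have := h.sep a W (by omega) (by omega) hab1 hab2
    omega
  -- the leftmost upper-left neighbour of `a` that sees a point above-right of `a`
  obtain ⟨u, ⟨hu1, hu2, w0, hw1, hw2, hw3⟩, humin⟩ :=
    Set.exists_min_image
      {z : V | X z < X a ∧ Y a < Y z ∧ ∃ w, X a < X w ∧ Y a < Y w ∧ Y w < Y z} X
      (Set.toFinite _) ⟨a', hUL, hYa', a2, ha2.1, ha2.2, by omega⟩
  have hau : G.Adj a u := (h.adj _ _).mpr (by omega)
  obtain ⟨x, hax, hxu, hnxu, huniq⟩ := hna u hau
  have hax' := (h.adj _ _).mp hax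
  have hnxu' := mt (h.adj _ _).mpr hnxu
  have hxuX := h.neX hxu
  have hxuY := h.neY hxu
  have hxa : X x < X a ∧ Y a < Y x := by omega
  have hxlt : X x < X u ∧ Y x < Y u := by
    by_contra hc
    have hw0 : w0 = a := huniq w0 ((h.adj _ _).mpr (by omega)) ((h.adj _ _).mpr (by omega))
    subst hw0
    omega
  -- the other neighbours of `x` are left of `u`
  have hz1 : ∀ z, G.Adj x z → z ≠ a → X z < X u := by
    intro z hxz hza
    have hxz' := (h.adj _ _).mp hxz
    by_contra hc
    have hzu : z ≠ u := by
      rintro rfl
      exact hnxu hxz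
    have := h.neX hzu
    exact hza (huniq z hxz ((h.adj _ _).mpr (by omega)))
  -- points left of `u` see no point above-right of `a`
  have hz2 : ∀ z w, X z < X u → G.Adj z w → ¬ (X a < X w ∧ Y a < Y w) := by
    rintro z w hzu hzw ⟨hw1, hw2⟩
    have hzw' := (h.adj _ _).mp hzw
    have := humin z ⟨by omega, by omega, w, hw1, hw2, by omega⟩
    omega
  have hreach : G.Reachable x b := hax.symm.reachable.trans hm.1
  have hle : G.dist x b ≤ G.dist a b + 1 := dist_le_succ_of_adj hax.symm b
  have key : ∀ p : G.Walk x b, p.length ≤ G.dist a b + 1 →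
      e ∈ p.edges ∧ p.length = G.dist a b + 1 := by
    intro p hp
    cases p with
    | nil => omega
    | @cons _ z _ hxz p =>
      simp only [Walk.length_cons, Walk.edges_cons, List.mem_cons] at hp ⊢
      by_cases hza : z = a
      · subst hza
        have := dist_le p
        exact ⟨Or.inr (hm.2 p (by omega)), by omega⟩
      · have hzu := hz1 z hxz hza
        cases p with
        | nil => omega
        | @cons _ w _ hzw p =>
          simp only [Walk.length_cons, Walk.edges_cons, List.mem_cons] at hp ⊢
          have hw := hz2 z w hzu hzw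
          have hwa : w ≠ a := by
            rintro rfl
            have := dist_le p
            omega
          have hadj : G.Adj a w := by
            by_contra hc
            have hx := h.neX hwa
            have hy := h.neY hwa
            rw [h.adj] at hc
            have := h.sep a p (by omega) (by omega) hab1 hab2
            omega
          have hd := dist_le (Walk.cons hadj p)
          simp only [Walk.length_cons] at hd
          have hmem := hm.2 (Walk.cons hadj p) (by simp only [Walk.length_cons]; omega)
          simp only [Walk.edges_cons, List.mem_cons] at hmem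
          rcases hmem with hmem | hmem
          · exfalso
            have hmem2 := hm.2 (Walk.cons h1 (Walk.cons h2 W))
              (by simp only [Walk.length_cons]; omega)
            simp only [Walk.edges_cons, List.mem_cons] at hmem2
            rw [hmem] at hmem2
            rcases hmem2 with hm2 | hm2 | hm2
            · have hwa' : w = a' := by
                rcases Sym2.eq_iff.mp hm2 with ⟨_, h'⟩ | ⟨h', _⟩
                · exact h'
                · exact absurd h' h1.ne
              subst hwa'
              have hzw' := (h.adj _ _).mp hzw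
              have hua' := humin w ⟨hUL, hYa', a2, ha2.1, ha2.2, by omega⟩
              exact hz2 z a2 hzu ((h.adj _ _).mpr (by omega)) ha2
            · rcases Sym2.eq_iff.mp hm2 with ⟨h', _⟩ | ⟨h', _⟩
              · exact h1.ne h'
              · exact ha2ne h'.symm
            · have := dist_le_of_mem_support_right _ (Walk.fst_mem_support_of_mem_edges _ hm2)
              omega
          · exact ⟨Or.inr (Or.inr hmem), by omega⟩
  obtain ⟨P, hP⟩ := hreach.exists_walk_length_eq_dist
  have hP' := (key P (by omega)).2
  exact ⟨x, ⟨hreach, fun p hp => (key p (by omega)).1⟩, by omega⟩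

lemma extend_adj {a b : V} {e : Sym2 V} (hm : Mon G a b e) (hab : G.Adj a b) (hna : Loose G a) :
    ∃ x, Mon G x b e ∧ G.dist x b = G.dist a b + 1 := by
  have hd : G.dist a b = 1 := dist_eq_one_iff_adj.mpr hab
  have he : e = s(a, b) := by
    have := hm.2 (Walk.cons hab Walk.nil) (by simp [hd])
    simpa using this
  obtain ⟨x, hax, hxb, hnxb, huniq⟩ := hna b hab
  have hreach : G.Reachable x b := hax.symm.reachable.trans hm.1
  have hle : G.dist x b ≤ G.dist a b + 1 := dist_le_succ_of_adj hax.symm b
  have hlt := hreach.one_lt_dist_of_ne_of_not_adj hxb hnxb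
  refine ⟨x, ⟨hreach, fun p hp => ?_⟩, by omega⟩
  have hp2 : p.length = 2 := by omega
  cases p with
  | nil => simp at hp2
  | @cons _ z _ hxz p =>
    cases p with
    | nil => simp at hp2
    | @cons _ w _ hzw p =>
      simp only [Walk.length_cons] at hp2
      have hw : w = b := Walk.eq_of_length_eq_zero (p := p) (by omega)
      subst hw
      have hz := huniq z hxz hzw
      subst hz
      simp [he]

lemma Rep.extend [Finite V] {X Y : V → ℤ} (h : Rep G X Y) {a b : V} {e : Sym2 V}
    (hm : Mon G a b e) (hna : Loose G a) :
    ∃ x, Mon G x b e ∧ G.dist x b = G.dist a b + 1 := by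
  by_cases hadj : G.Adj a b
  · exact extend_adj hm hadj hna
  have hne : a ≠ b := by
    rintro rfl
    have := hm.2 Walk.nil (by simp)
    simp at this
  have hlt := hm.1.one_lt_dist_of_ne_of_not_adj hne hadj
  obtain ⟨P, hP⟩ := hm.1.exists_walk_length_eq_dist
  cases P with
  | nil => exact absurd rfl hne
  | @cons _ a' _ h1 P =>
    cases P with
    | nil => exact absurd h1 hadj
    | @cons _ a2 _ h2 W =>
      simp only [Walk.length_cons] at hP
      have hx := h.neX hne
      have hy := h.neY hne
      have h1' := (h.adj _ _).mp h1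
      rw [h.adj] at hadj
      by_cases hab : X a < X b
      · rcases h1' with h1' | h1'
        · exact h.swap.extend_UL hm (by omega) hab h1 h2 W (by omega) h1'.2 hna
        · exact h.extend_UL hm hab (by omega) h1 h2 W (by omega) h1'.1 hna
      · rcases h1' with h1' | h1'
        · exact h.neg.extend_UL hm (by omega) (by omega) h1 h2 W
            (by omega) (by omega) hna
        · exact h.swap.neg.extend_UL hm (by omega) (by omega) h1 h2 W
            (by omega) (by omega) hna

lemma mon_self {u v : V} (h : G.Adj u v) : Mon G u v s(u, v) := by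
  refine ⟨h.reachable, fun p hp => ?_⟩
  rw [dist_eq_one_iff_adj.mpr h] at hp
  cases p with
  | nil => simp at hp
  | @cons _ z _ hz p =>
    simp only [Walk.length_cons] at hp
    have hw : z = v := Walk.eq_of_length_eq_zero (p := p) (by omega)
    subst hw
    simp

lemma Rep.isMEG_man [Finite V] {X Y : V → ℤ} (h : Rep G X Y) : IsMEG G (Man G) := by
  intro e he
  induction e using Sym2.ind with
  | _ u v =>
    have huv : G.Adj u v := he
    obtain ⟨⟨a, b⟩, hm, hmax⟩ :=
      Set.exists_max_image {ab : V × V | Mon G ab.1 ab.2 s(u, v)} (fun ab => G.dist ab.1 ab.2)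
        (Set.toFinite _) ⟨(u, v), mon_self huv⟩
    simp only [Set.mem_ofPred_eq] at hm hmax
    refine ⟨a, ?_, b, ?_, monitors_iff.mpr hm⟩
    · by_contra hc
      obtain ⟨x, hx, hd⟩ := h.extend hm (loose_of_not_mem_man hc)
      have := hmax (x, b) hx
      simp only at this
      omega
    · by_contra hc
      obtain ⟨x, hx, hd⟩ := h.extend hm.symm (loose_of_not_mem_man hc)
      have := hmax (x, a) hx
      simp only at this
      rw [dist_comm (u := a) (v := b)] at this
      omega

lemma ncard_man_eq_meg [Finite V] (h : IsMEG G (Man G)) : (Man G).ncard = meg G := by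
  apply le_antisymm
  · have hne : {k : ℕ | ∃ S : Set V, IsMEG G S ∧ S.ncard = k}.Nonempty := ⟨_, Man G, h, rfl⟩
    obtain ⟨S, hS, hk⟩ := Nat.sInf_mem hne
    rw [meg, ← hk]
    exact Set.ncard_le_ncard (fun v hv => hv S hS) (Set.toFinite _)
  · exact Nat.sInf_le ⟨Man G, h, rfl⟩

lemma IsPermutationGraph.exists_rep (h : IsPermutationGraph G) : ∃ X Y : V → ℤ, Rep G X Y := by
  obtain ⟨n, π, ⟨φ⟩⟩ := h
  refine ⟨fun v => ((φ v : Fin n) : ℕ), fun v => ((π (φ v) : Fin n) : ℕ), ?_, ?_, ?_⟩
  · intro u v huv
    exact φ.injective (Fin.ext (by simpa using huv))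
  · intro u v huv
    exact φ.injective (π.injective (Fin.ext (by simpa using huv)))
  · intro u v
    rw [← φ.map_rel_iff]
    simp only [permGraph, fromRel_adj, Nat.cast_lt, Fin.val_fin_lt]
    constructor
    · rintro ⟨_, h⟩
      exact h
    · intro h
      refine ⟨?_, h⟩
      intro he
      rw [he] at h
      simp at h

theorem main [Finite V] (h : IsPermutationGraph G) :
    IsMEG G (Man G) ∧ (Man G).ncard = meg G := by
  obtain ⟨X, Y, hr⟩ := h.exists_rep
  exact ⟨hr.isMEG_man, ncard_man_eq_meg hr.isMEG_man⟩

end Pool.Agent.MP_8e9d7b_co
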